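import Pool.Agent.Helper802.HolderExt.Compact

/-!
# Extension of Hölder maps into Euclidean space: the bound `C n^(α - 1/2)`

For `1/2 < α < 1` every map `φ` from a subset of a metric space into `n`-dimensional Euclidean
space with `‖φ x - φ y‖ ≤ d(x, y)^α` extends to the whole space with the constant
`C n^(α - 1/2)`, where `C` depends neither on `n` nor on `α`.
-/

noncomputable section

namespace Pool.Agent.Results.MP_e08f0b_an.KaltonBound

universe u

/-- The extension property with constant `c`: for every metric space `M`, every subset `E` of `M`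
and every map `φ` from `E` to `n`-dimensional Euclidean space with
`‖φ x - φ y‖ ≤ d(x, y)^α` on `E`, there is an extension `ψ` of `φ` to `M` with
`‖ψ x - ψ y‖ ≤ c d(x, y)^α` on `M`. -/
def ExtProp (α : ℝ) (n : ℕ) (c : ℝ) : Prop :=
  ∀ (M : Type u) [MetricSpace M] (E : Set M) (φ : E → EuclideanSpace ℝ (Fin n)),
    (∀ x y : E, ‖φ x - φ y‖ ≤ dist (x : M) (y : M) ^ α) →
      ∃ ψ : M → EuclideanSpace ℝ (Fin n), (∀ x : E, ψ (x : M) = φ x) ∧
        ∀ x y : M, ‖ψ x - ψ y‖ ≤ c * dist x y ^ α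

/-- The constant `c_α(n)`: the infimum of all constants with the extension property. -/
def extConst (α : ℝ) (n : ℕ) : ℝ := sInf {c : ℝ | 0 ≤ c ∧ ExtProp.{u} α n c}

theorem extProp_bound {α : ℝ} (h12 : 1 / 2 < α) (h1 : α < 1) (n : ℕ) :
    ExtProp.{u} α n (600377 * (n : ℝ) ^ (α - 1 / 2)) := by
  intro M _ E φ hφ
  rcases Nat.eq_zero_or_pos n with rfl | hn
  · refine ⟨fun _ => 0, fun x => Subsingleton.elim _ _, fun x y => ?_⟩
    simp only [sub_zero, norm_zero]
    positivity
  have hn1 : (1 : ℝ) ≤ n := by exact_mod_cast hn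
  obtain ⟨ψ, ha, hb⟩ := Helper802.HolderExt.general_ext (V := EuclideanSpace ℝ (Fin n)) h12 h1
    (by rw [finrank_euclideanSpace_fin]; exact hn) hφ
  refine ⟨ψ, ha, fun x y => (hb x y).trans (mul_le_mul_of_nonneg_right ?_ (by positivity))⟩
  unfold Helper802.HolderExt.AA Helper802.HolderExt.bb
  rw [finrank_euclideanSpace_fin]
  have h2 : ((n : ℝ) + 1) ^ (α - 1 / 2) ≤ 2 * (n : ℝ) ^ (α - 1 / 2) :=
    (Real.rpow_le_rpow (by positivity) (show (n : ℝ) + 1 ≤ 2 * n by linarith)
      (by linarith)).trans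
      (Helper802.HolderExt.mul_rpow_le (by norm_num) (by positivity) (by linarith))
  have h3 : 1 ≤ (n : ℝ) ^ (α - 1 / 2) := Real.one_le_rpow hn1 (by linarith)
  linarith

/-- There is an absolute constant `C` such that for all `1/2 < α < 1` and all `n` the extension
property holds with the constant `C n^(α - 1/2)`; in particular `c_α(n) ≤ C n^(α - 1/2)`. -/
theorem result : ∃ C : ℝ, 0 < C ∧ ∀ α : ℝ, 1 / 2 < α → α < 1 → ∀ n : ℕ,
    ExtProp.{u} α n (C * (n : ℝ) ^ (α - 1 / 2)) ∧
    extConst.{u} α n ≤ C * (n : ℝ) ^ (α - 1 / 2) := by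
  refine ⟨600377, by norm_num, fun α h12 h1 n => ⟨extProp_bound h12 h1 n, ?_⟩⟩
  exact csInf_le ⟨0, fun c hc => hc.1⟩ ⟨by positivity, extProp_bound h12 h1 n⟩

end Pool.Agent.Results.MP_e08f0b_an.KaltonBound
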